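import Mathlib
import Pool.Agent.Helper58.FX.Defs
import Pool.Agent.Helper58.FX.St.Stubs

set_option autoImplicit false
open MeasureTheory Filter Topology Helper17.LevelSets
open scoped InnerProductSpace ComplexConjugate ENNReal

namespace Helper11.FX
open Helper58.FX

variable {μ : Measure Tor}

lemma integrable_norm_Lp [IsProbabilityMeasure μ] (u : Lp ℂ 2 μ) :
    Integrable (fun x => ‖u x‖) μ := by
  have h : MemLp (u : Tor → ℂ) 2 μ := Lp.memLp u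
  exact (h.mono_exponent (by norm_num : (1 : ℝ≥0∞) ≤ 2)).integrable (le_refl _) |>.norm

lemma pair_le [IsProbabilityMeasure μ] (u v : Lp ℂ 2 μ) (hv : ∀ᵐ x ∂μ, ‖v x‖ ≤ 1) :
    ‖⟪u, v⟫_ℂ‖ ≤ ∫ x, ‖u x‖ ∂μ := by
  rw [L2.inner_def]
  refine (norm_integral_le_integral_norm _).trans ?_
  refine integral_mono_ae (L2.integrable_inner u v).norm (integrable_norm_Lp u) ?_
  filter_upwards [hv] with x hx
  calc ‖⟪u x, v x⟫_ℂ‖ ≤ ‖u x‖ * ‖v x‖ := norm_inner_le_norm _ _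
    _ ≤ ‖u x‖ * 1 := mul_le_mul_of_nonneg_left hx (norm_nonneg _)
    _ = ‖u x‖ := mul_one _

lemma UU_coe {n : ℕ} (h : MeasurePreserving (T n) μ μ) (v : Lp ℂ 2 μ) :
    (UU h v : Tor → ℂ) =ᵐ[μ] fun x => v (T n x) :=
  Lp.coeFn_compMeasurePreserving v h

lemma UU_bdd {n : ℕ} (h : MeasurePreserving (T n) μ μ) {v : Lp ℂ 2 μ}
    (hv : ∀ᵐ x ∂μ, ‖v x‖ ≤ 1) : ∀ᵐ x ∂μ, ‖(UU h v : Tor → ℂ) x‖ ≤ 1 := by
  have h1 := h.quasiMeasurePreserving.ae hv
  filter_upwards [UU_coe h v, h1] with x hx hx1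
  rw [hx]
  exact hx1

lemma UU_pow_bdd {n : ℕ} (h : MeasurePreserving (T n) μ μ) (k : ℕ) {v : Lp ℂ 2 μ}
    (hv : ∀ᵐ x ∂μ, ‖v x‖ ≤ 1) : ∀ᵐ x ∂μ, ‖(((UU h) ^ k) v : Tor → ℂ) x‖ ≤ 1 := by
  induction k with
  | zero => simpa using hv
  | succ k ih =>
      have : ((UU h) ^ (k + 1)) v = UU h (((UU h) ^ k) v) := by
        rw [pow_succ']; rfl
      rw [this]
      exact UU_bdd h ih

lemma act_bdd (h2 : MeasurePreserving (T 2) μ μ) (h3 : MeasurePreserving (T 3) μ μ)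
    (s : ℕ × ℕ) {v : Lp ℂ 2 μ} (hv : ∀ᵐ x ∂μ, ‖v x‖ ≤ 1) :
    ∀ᵐ x ∂μ, ‖(act (UU h2) (UU h3) s v : Tor → ℂ) x‖ ≤ 1 := by
  have : act (UU h2) (UU h3) s v = ((UU h2) ^ s.1) (((UU h3) ^ s.2) v) := rfl
  rw [this]
  exact UU_pow_bdd h2 _ (UU_pow_bdd h3 _ hv)

lemma Low.fre {Q : Set (ℕ × ℕ)} {d : ℝ} (h : Low Q d) : Fre Q d :=
  Filter.Eventually.frequently h

lemma pair_PP_le [IsProbabilityMeasure μ] (h2 : MeasurePreserving (T 2) μ μ)
    (h3 : MeasurePreserving (T 3) μ μ) {v : Lp ℂ 2 μ} (hv : ∀ᵐ x ∂μ, ‖v x‖ ≤ 1)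
    (u : Lp ℂ 2 μ) :
    ‖⟪u, PP (UU h2) (UU h3) v⟫_ℂ‖ ≤ ∫ x, ‖u x‖ ∂μ := by
  have hUV := St.commute_UU h2 h3
  set P := PP (UU h2) (UU h3) v with hP
  have hPm : P ∈ Hc (UU h2) (UU h3) := Submodule.starProjection_apply_mem _ _
  have hw : v - P ∈ (Hc (UU h2) (UU h3))ᗮ := Submodule.sub_starProjection_mem_orthogonal v
  refine le_of_forall_pos_le_add (fun ε hε => ?_)
  set δ : ℝ := ε / (‖u‖ + 1) with hδ
  have hu : 0 < ‖u‖ + 1 := by positivity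
  have hδ0 : 0 < δ := by positivity
  obtain ⟨d, hd, hB⟩ := St.bohr hUV hPm hδ0
  have hm := St.weak_mixing hUV hw u
  obtain ⟨s, hs, hs1⟩ := St.mean_pick (fun s => by positivity) hm hd (Low.fre hB)
    (show 0 < δ ^ 2 by positivity)
  have hs2 : ‖⟪u, act (UU h2) (UU h3) s (v - P)⟫_ℂ‖ < δ :=
    lt_of_pow_lt_pow_left₀ 2 hδ0.le hs1
  have hs0 : ‖act (UU h2) (UU h3) s P - P‖ ≤ δ := hs
  have key : ⟪u, P⟫_ℂ = ⟪u, act (UU h2) (UU h3) s v⟫_ℂ
      - ⟪u, act (UU h2) (UU h3) s (v - P)⟫_ℂ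
      - ⟪u, act (UU h2) (UU h3) s P - P⟫_ℂ := by
    rw [map_sub, inner_sub_right, inner_sub_right]
    ring
  have h1 : ‖⟪u, act (UU h2) (UU h3) s P - P⟫_ℂ‖ ≤ ‖u‖ * δ :=
    (norm_inner_le_norm _ _).trans (mul_le_mul_of_nonneg_left hs0 (norm_nonneg _))
  have h4 : ‖⟪u, act (UU h2) (UU h3) s v⟫_ℂ‖ ≤ ∫ x, ‖u x‖ ∂μ :=
    pair_le u _ (act_bdd h2 h3 s hv)
  have h5 : ‖u‖ * δ + δ = ε := by
    rw [hδ]; field_simp
  rw [key]
  calc _ ≤ ‖⟪u, act (UU h2) (UU h3) s v⟫_ℂ‖ + ‖⟪u, act (UU h2) (UU h3) s (v - P)⟫_ℂ‖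
        + ‖⟪u, act (UU h2) (UU h3) s P - P⟫_ℂ‖ :=
        (norm_sub_le _ _).trans (add_le_add_left (norm_sub_le _ _) _)
    _ ≤ (∫ x, ‖u x‖ ∂μ) + δ + ‖u‖ * δ := by linarith [hs2.le]
    _ = _ := by linarith

/-- FX-18 -/
theorem PP_bdd [IsProbabilityMeasure μ] (h2 : MeasurePreserving (T 2) μ μ)
    (h3 : MeasurePreserving (T 3) μ μ) {v : Lp ℂ 2 μ} (hv : ∀ᵐ x ∂μ, ‖v x‖ ≤ 1) :
    ∀ᵐ x ∂μ, ‖(PP (UU h2) (UU h3) v : Tor → ℂ) x‖ ≤ 1 := by
  set P := PP (UU h2) (UU h3) v with hP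
  have hPm : StronglyMeasurable (P : Tor → ℂ) := Lp.stronglyMeasurable P
  set A : Set Tor := {x | 1 < ‖P x‖} with hA
  have hAm : MeasurableSet A := measurableSet_lt measurable_const hPm.norm.measurable
  set g : Tor → ℂ := A.indicator (fun x => P x / (‖P x‖ : ℂ)) with hg
  have hgm : StronglyMeasurable g := by
    refine StronglyMeasurable.indicator ?_ hAm
    exact hPm.div (Complex.continuous_ofReal.comp_stronglyMeasurable hPm.norm)
  have hgn : ∀ x, ‖g x‖ = A.indicator (fun _ => (1 : ℝ)) x := by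
    intro x
    by_cases hx : x ∈ A
    · have hx1 : 1 < ‖P x‖ := hx
      rw [hg, Set.indicator_of_mem hx, Set.indicator_of_mem hx, norm_div, Complex.norm_real,
        norm_norm, div_self (by linarith : ‖P x‖ ≠ 0)]
    · rw [hg, Set.indicator_of_notMem hx, Set.indicator_of_notMem hx, norm_zero]
  have hgb : ∀ x, ‖g x‖ ≤ 1 := by
    intro x
    rw [hgn]
    by_cases hx : x ∈ A
    · rw [Set.indicator_of_mem hx]
    · rw [Set.indicator_of_notMem hx]; exact zero_le_one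
  have hgL : MemLp g 2 μ := MemLp.of_bound hgm.aestronglyMeasurable 1 (Eventually.of_forall hgb)
  set u : Lp ℂ 2 μ := hgL.toLp g with hu
  have huc : (u : Tor → ℂ) =ᵐ[μ] g := MemLp.coeFn_toLp hgL
  have hle := pair_PP_le h2 h3 hv u
  rw [← hP] at hle
  have hi : ⟪u, P⟫_ℂ = ((∫ x in A, ‖P x‖ ∂μ : ℝ) : ℂ) := by
    rw [L2.inner_def, ← integral_complex_ofReal, ← integral_indicator hAm]
    refine integral_congr_ae ?_
    filter_upwards [huc] with x hx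
    rw [hx]
    by_cases hxA : x ∈ A
    · have hx1 : 1 < ‖P x‖ := hxA
      have hne : (‖P x‖ : ℂ) ≠ 0 := by
        rw [Ne, Complex.ofReal_eq_zero]; linarith
      rw [hg, Set.indicator_of_mem hxA, Set.indicator_of_mem hxA, RCLike.inner_apply, map_div₀,
        Complex.conj_ofReal]
      rw [mul_div_assoc', Complex.mul_conj, Complex.normSq_eq_norm_sq, div_eq_iff hne]
      push_cast
      ring
    · rw [hg, Set.indicator_of_notMem hxA, Set.indicator_of_notMem hxA, inner_zero_left]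
  have hr : ∫ x, ‖u x‖ ∂μ = μ.real A := by
    rw [← integral_indicator_one hAm]
    refine integral_congr_ae ?_
    filter_upwards [huc] with x hx
    rw [hx, hgn]
    rfl
  rw [hi, hr, Complex.norm_real, Real.norm_of_nonneg
    (setIntegral_nonneg hAm (fun x _ => norm_nonneg _))] at hle
  have hIP : IntegrableOn (fun x => ‖P x‖) A μ := (integrable_norm_Lp P).integrableOn
  have hsub : ∫ x in A, (‖P x‖ - 1) ∂μ ≤ 0 := by
    rw [integral_sub hIP (integrable_const _)]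
    simp only [integral_const, smul_eq_mul, mul_one]
    rw [measureReal_restrict_apply_univ]
    linarith
  have hz : ∫ x in A, (‖P x‖ - 1) ∂μ = 0 :=
    le_antisymm hsub (setIntegral_nonneg hAm (fun x hx => by
      have : 1 < ‖P x‖ := hx
      linarith))
  have hz2 := (setIntegral_eq_zero_iff_of_nonneg_ae
    ((ae_restrict_iff' hAm).2 (Eventually.of_forall (fun x hx => by
      have : 1 < ‖P x‖ := hx
      show (0 : ℝ) ≤ ‖P x‖ - 1
      linarith))) (hIP.sub (integrable_const _))).1 hz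
  have hz3 := (ae_restrict_iff' hAm).1 hz2
  filter_upwards [hz3] with x hx
  by_contra hc
  have hc' : x ∈ A := not_le.1 hc
  have h6 := hx hc'
  have h7 : 1 < ‖P x‖ := hc'
  simp only [Pi.zero_apply, Pi.sub_apply] at h6
  linarith

end Helper11.FX
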